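import Pool.Agent.helper38.VA.Spec

/-!
# Project va, row DPR: two spaces of D-type with the same `k`
-/

set_option autoImplicit false

namespace Pool.Agent.VA

open Matrix Module Pool.Agent.PR Pool.Agent.H48SL

theorem DPR_w {n : ℕ} (φ : Fin n → ℚ) (h : φ ≠ 0) : ∃ w, φ ⬝ᵥ w = 1 := by
  obtain ⟨i, hi⟩ := Function.ne_iff.1 h
  refine ⟨Pi.single i (φ i)⁻¹, ?_⟩
  rw [dotProduct_single]
  exact mul_inv_cancel₀ hi

theorem DPR_form {n : ℕ} {W : Submodule ℚ (MQ n)} {k φ : Fin n → ℚ} (h : DT W k φ)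
    (v : Fin n → ℚ) (hv : φ ⬝ᵥ v = 0) :
    ∃ X ∈ W, ∀ u, ∃ c : ℚ, X *ᵥ u = (φ ⬝ᵥ u) • v + c • k := by
  obtain ⟨w, hw⟩ := DPR_w φ h.f0
  obtain ⟨X, hX, c, hc⟩ := h.sf v hv w hw
  refine ⟨X, hX, fun u => ?_⟩
  have h0 : φ ⬝ᵥ (u - (φ ⬝ᵥ u) • w) = 0 := by
    rw [dotProduct_sub, dotProduct_smul, hw]
    simp
  obtain ⟨d, hd⟩ := h.Xu X hX _ h0
  rw [mulVec_sub, mulVec_smul, hc, sub_eq_iff_eq_add] at hd
  refine ⟨d + (φ ⬝ᵥ u) * c, ?_⟩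
  rw [hd, smul_add, add_smul, smul_smul]
  abel

theorem DPR_two {n : ℕ} (hn : 4 ≤ n) (φ φ' k : Fin n → ℚ) :
    ∃ v : Fin n → ℚ, φ ⬝ᵥ v = 0 ∧ φ' ⬝ᵥ v = 0 ∧ ∀ c : ℚ, v ≠ c • k := by
  set L : (Fin n → ℚ) →ₗ[ℚ] (Fin 2 → ℚ) := (Matrix.of ![φ, φ']).mulVecLin with hL
  have h1 := LinearMap.finrank_range_add_finrank_ker L
  have h2 : finrank ℚ (LinearMap.range L) ≤ 2 := by
    have := Submodule.finrank_le (LinearMap.range L)
    simpa using this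
  have h3 : finrank ℚ (Fin n → ℚ) = n := by simp
  have h4 : ¬ LinearMap.ker L ≤ Submodule.span ℚ {k} := by
    intro hle
    have h5 := Submodule.finrank_mono hle
    have h6 : finrank ℚ (Submodule.span ℚ {k}) ≤ 1 :=
      (finrank_span_le_card ({k} : Set (Fin n → ℚ))).trans (by simp)
    omega
  obtain ⟨v, hv, hv'⟩ := SetLike.not_le_iff_exists.1 h4
  have h7 : L v = 0 := hv
  refine ⟨v, ?_, ?_, ?_⟩
  · have := congrFun h7 0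
    simpa [hL, Matrix.mulVec, Matrix.of_apply] using this
  · have := congrFun h7 1
    simpa [hL, Matrix.mulVec, Matrix.of_apply] using this
  · intro c hc
    exact hv' (Submodule.mem_span_singleton.2 ⟨c, hc.symm⟩)

theorem DPR_v' {n : ℕ} (φ φ' : Fin n → ℚ) (h0 : φ ≠ 0) (h0' : φ' ≠ 0)
    (h : ∀ c : ℚ, φ' ≠ c • φ) : ∃ v' : Fin n → ℚ, φ' ⬝ᵥ v' = 0 ∧ φ ⬝ᵥ v' ≠ 0 := by
  by_contra hcon
  push Not at hcon
  obtain ⟨w, hw⟩ := DPR_w φ' h0'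
  have h1 : φ = (φ ⬝ᵥ w) • φ' := by
    funext j
    have h2 : φ' ⬝ᵥ (Pi.single j 1 - (φ' j) • w) = 0 := by
      rw [dotProduct_sub, dotProduct_smul, hw, dotProduct_single]
      simp
    have h3 := hcon _ h2
    rw [dotProduct_sub, dotProduct_smul, dotProduct_single, mul_one, sub_eq_zero] at h3
    rw [h3, Pi.smul_apply, smul_eq_mul, smul_eq_mul, mul_comm]
  have h4 : φ ⬝ᵥ w ≠ 0 := by
    intro h5
    rw [h5, zero_smul] at h1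
    exact h0 h1
  apply h (φ ⬝ᵥ w)⁻¹
  rw [h1, smul_smul, ← h1, inv_mul_cancel₀ h4, one_smul]

theorem DPR_ex {n : ℕ} {H : Subgroup (SLZ n)} {X : MQ n} (hX : IsNilpotent X) (h : EX H X)
    (m : ℕ) : EX H ((m : ℚ) • X) := by
  induction m with
  | zero =>
    refine ⟨1, H.one_mem, ?_⟩
    rw [Nat.cast_zero, zero_smul, IsNilpotent.exp_zero, stdM_one]
  | succ m ih =>
    obtain ⟨a, ha, hae⟩ := h
    obtain ⟨b, hb, hbe⟩ := ih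
    refine ⟨b * a, H.mul_mem hb ha, ?_⟩
    have hc : Commute ((m : ℚ) • X) X := (Commute.refl X).smul_left _
    have hn : IsNilpotent ((m : ℚ) • X) := hX.smul _
    rw [stdM_mul, hae, hbe, Nat.cast_succ, add_smul, one_smul,
      IsNilpotent.exp_add_of_commute hc hn hX]

theorem DPR : DPR_stmt := by
  intro n hn H W W' k φ φ' hD hD' hnil hnil' hex hex' hphi
  obtain ⟨v, hv1, hv2, hv3⟩ := DPR_two hn φ φ' k
  obtain ⟨v', hv'1, hv'2⟩ := DPR_v' φ φ' hD.f0 hD'.f0 hphi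
  obtain ⟨X, hX, hXu⟩ := DPR_form hD v hv1
  obtain ⟨Y, hY, hYu⟩ := DPR_form hD' v' hv'1
  obtain ⟨Z, hZ, hZu⟩ := DPR_form hD' ((φ ⬝ᵥ v') • v) (by rw [dotProduct_smul, hv2, smul_zero])
  obtain ⟨iX, hiX, heX⟩ := hex X hX
  obtain ⟨iY, hiY, heY⟩ := hex' Y hY
  obtain ⟨iZ, hiZ, heZ⟩ := hex' Z hZ
  have hX0 : X ≠ 0 := by
    intro h0
    obtain ⟨w, hw⟩ := DPR_w φ hD.f0
    obtain ⟨c, hc⟩ := hXu w
    rw [h0, hw, zero_mulVec, one_smul] at hc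
    exact hv3 (-c) (by rw [neg_smul]; exact eq_neg_of_add_eq_zero_left hc.symm)
  have hZ0 : Z ≠ 0 := by
    intro h0
    obtain ⟨w, hw⟩ := DPR_w φ' hD'.f0
    obtain ⟨c, hc⟩ := hZu w
    rw [h0, hw, zero_mulVec, one_smul] at hc
    apply hv3 (-((φ ⬝ᵥ v')⁻¹ * c))
    have h1 : (φ ⬝ᵥ v') • v = -(c • k) := eq_neg_of_add_eq_zero_left hc.symm
    calc v = (φ ⬝ᵥ v')⁻¹ • ((φ ⬝ᵥ v') • v) := by rw [smul_smul, inv_mul_cancel₀ hv'2, one_smul]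
      _ = -((φ ⬝ᵥ v')⁻¹ * c) • k := by rw [h1, smul_neg, smul_smul, neg_smul]
  have hq : ∀ i : ℕ, 0 < i → ((i : ℚ)) ≠ 0 := fun i hi => by exact_mod_cast hi.ne'
  set a : ℚ := (iZ : ℚ) * (iX : ℚ) with ha
  set b : ℚ := (iY : ℚ) with hb
  have ha0 : a ≠ 0 := mul_ne_zero (hq _ hiZ) (hq _ hiX)
  have hb0 : b ≠ 0 := hq _ hiY
  refine ⟨a • X, W.smul_mem _ hX, b • Y, W'.smul_mem _ hY, (a * b) • Z, W'.smul_mem _ hZ,
    smul_ne_zero ha0 hX0, smul_ne_zero (mul_ne_zero ha0 hb0) hZ0, ?_, heY, ?_, ?_, ?_, ?_, ?_⟩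
  · have h1 := DPR_ex ((hnil X hX).smul (iX : ℚ)) heX iZ
    rw [smul_smul] at h1
    exact h1
  · have h1 := DPR_ex ((hnil' Z hZ).smul (iZ : ℚ)) heZ (iX * iY)
    rw [smul_smul] at h1
    have h2 : ((iX * iY : ℕ) : ℚ) * (iZ : ℚ) = a * b := by
      rw [ha, hb]; push_cast; ring
    rw [h2] at h1
    exact h1
  · intro u
    obtain ⟨c1, h1⟩ := hYu u
    obtain ⟨c2, h2⟩ := hXu v'
    obtain ⟨c3, h3⟩ := hZu u
    refine ⟨(a * b) * ((φ' ⬝ᵥ u) * c2 - c3), ?_⟩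
    rw [sub_mulVec, ← mulVec_mulVec, smul_mulVec, smul_mulVec, smul_mulVec, mulVec_smul, h1, h3,
      mulVec_add, mulVec_smul, mulVec_smul, h2, hD.Xk X hX]
    ext j
    simp only [Pi.sub_apply, Pi.smul_apply, Pi.add_apply, Pi.zero_apply, smul_eq_mul]
    ring
  · intro u
    obtain ⟨c1, h1⟩ := hXu u
    obtain ⟨c2, h2⟩ := hD'.Xu Y hY v hv2
    refine ⟨(b * a) * ((φ ⬝ᵥ u) * c2), ?_⟩
    rw [← mulVec_mulVec, smul_mulVec, smul_mulVec, mulVec_smul, h1,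
      mulVec_add, mulVec_smul, mulVec_smul, h2, hD'.Xk Y hY]
    ext j
    simp only [Pi.smul_apply, Pi.add_apply, Pi.zero_apply, smul_eq_mul]
    ring
  · intro u
    obtain ⟨c1, h1⟩ := hZu u
    obtain ⟨c2, h2⟩ := hD.Xu X hX v hv1
    refine ⟨(a * (a * b)) * ((φ' ⬝ᵥ u) * ((φ ⬝ᵥ v') * c2)), ?_⟩
    rw [← mulVec_mulVec, smul_mulVec, smul_mulVec, mulVec_smul, h1,
      mulVec_add, mulVec_smul, mulVec_smul, mulVec_smul, h2, hD.Xk X hX]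
    ext j
    simp only [Pi.smul_apply, Pi.add_apply, Pi.zero_apply, smul_eq_mul]
    ring
  · intro u
    obtain ⟨c1, h1⟩ := hXu u
    obtain ⟨c2, h2⟩ := hD'.Xu Z hZ v hv2
    refine ⟨((a * b) * a) * ((φ ⬝ᵥ u) * c2), ?_⟩
    rw [← mulVec_mulVec, smul_mulVec, smul_mulVec, mulVec_smul, h1,
      mulVec_add, mulVec_smul, mulVec_smul, h2, hD'.Xk Z hZ]
    ext j
    simp only [Pi.smul_apply, Pi.add_apply, Pi.zero_apply, smul_eq_mul]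
    ring

end Pool.Agent.VA
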